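import Pool.Agent.Helper1.TE.Goals2

/-!
# PROJECT TE (MP_8b4d68_lc), packet TE-FI0: the single steps outside of the main loop
-/

namespace Pool.Agent.Helper54.TE

open Pool.Agent.Helper1.TE
open Pool.Agent.Helper65.LinSpace (dig tab nrec ifz eq01 le01 lt01 capPow)

theorem cif_z {β : Type} (x y : β) : cif 0 x y = x := rfl

theorem cif_n {β : Type} {c : ℕ} (h : c ≠ 0) (x y : β) : cif c x y = y := if_neg h

theorem ifz_z (x y : ℕ) : ifz 0 x y = x := rfl

theorem ifz_n {c : ℕ} (h : c ≠ 0) (x y : ℕ) : ifz c x y = y := if_neg h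

/-- The next state for a malformed word. -/
theorem inv_mal {ok : ℕ → ℕ → ℕ} {tst : ℕ → ℕ} {mal : ℕ} {w : List Bool}
    (h : ∀ h' b', ¬ Full ok w h' b') : Inv ok tst mal w (cif mal rejS accS) := by
  by_cases hm : mal = 0
  · rw [hm, cif_z]
    exact .rej
  · rw [cif_n hm]
    exact .m8 (Or.inr ⟨hm, fun ⟨h', b', hf⟩ => h h' b' hf⟩)

section nextN

variable (ok : ℕ → ℕ → ℕ) (tst : ℕ → ℕ) (mal h b u W U y γ : ℕ)

theorem nextN0 : nextN ok tst mal (hdr 0 h b u W U) y γ =
    cif y (cif mal rejS accS) (cif (y - 1) (hdr 1 h 0 0 0 0) (hdr 0 (h + 1) 0 0 0 0)) := rfl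

theorem nextN1 : nextN ok tst mal (hdr 1 h b u W U) y γ =
    cif y (cif mal rejS accS)
      (cif (y - 1) (cif (h * b * ok h b) (cif mal rejS accS) (hdr 2 h b 0 1 0))
      (hdr 1 h (b + 1) 0 0 0)) := rfl

theorem nextN2 : nextN ok tst mal (hdr 2 h b u W U) y γ =
    cif y (cif mal rejS accS)
      (cif (h - u) (hdr 3 h b 0 W 1) (hdr 2 h b (u + 1) (2 * W) 0)) := rfl

theorem nextN3 : nextN ok tst mal (hdr 3 h b u W U) y γ =
    cif y (cif mal rejS accS) (cif (2 * b - u) (hdr 4 h b 0 W U)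
      (hdr 3 h b (u + 1) W (2 * U))) := rfl

theorem nextN4 : nextN ok tst mal (hdr 4 h b u W U) y γ =
    cif y (hdr 5 h b 0 W U) (cif mal rejS accS) := rfl

theorem nextN5 : nextN ok tst mal (hdr 5 h b u W U) y γ =
    cif y (cif mal rejS accS) (hdr 6 h b 0 1 0) := rfl

theorem nextN6 : nextN ok tst mal (hdr 6 h b u W U) y γ =
    cif (EP h b - u) (mainS h b 0 W 0 0 0 C0) (hdr 6 h b (u + 1) (2 * W) 0) := rfl

theorem nextN8 : nextN ok tst mal accS y γ = accS := rfl

theorem nextN9 : nextN ok tst mal rejS y γ = rejS := rfl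

end nextN

theorem four_pow (b : ℕ) : 4 ^ b = 2 ^ (2 * b) := by
  rw [pow_mul]
  norm_num

theorem blocks_ge1 (h b : ℕ) : 2 ^ h ≤ blocks h b := Nat.le_add_right _ _

theorem blocks_ge2 {h b : ℕ} (hh : 1 ≤ h) : 4 ^ b ≤ blocks h b := by
  have h1 : 2 ≤ 2 ^ h := by
    calc 2 = 2 ^ 1 := rfl
      _ ≤ 2 ^ h := Nat.pow_le_pow_right (by norm_num) hh
  have h2 : 1 * 4 ^ b ≤ (2 ^ h - 1) * 4 ^ b := Nat.mul_le_mul_right _ (by omega)
  unfold blocks
  omega

theorem len_gt {ok : ℕ → ℕ → ℕ} {w : List Bool} {h b n : ℕ} (hf : Full ok w h b)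
    (hn : n ≤ blocks h b) : n < w.length := by
  obtain ⟨⟨_, _, _, hb, _⟩, hl⟩ := hf
  have h1 : blocks h b * 1 ≤ blocks h b * b := Nat.mul_le_mul_left _ hb
  omega

theorem codeB_none : codeB none = 0 := rfl

theorem codeB_false : codeB (some false) = 1 := rfl

theorem codeB_true : codeB (some true) = 2 := rfl

theorem codeB_some (a : Bool) : codeB (some a) ≠ 0 := by cases a <;> decide

theorem lenM_eq (h b : ℕ) : lenM h b (2 ^ h) (4 ^ b) = h + b + 2 + blocks h b * b := rfl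

/-- The step with `γ = 0`. -/
theorem nx_zero (ok : ℕ → ℕ → ℕ) (tst : ℕ → ℕ) (mal : ℕ) (w : List Bool) (x : Sta) :
    (machM ok tst mal).nx w x 0 = nextN ok tst mal x (codeB w[addrM x]?) 0 := by
  change nextM ok tst mal x (codeB w[addrM x]?) 0 = _
  unfold nextM
  rw [Nat.zero_mul, cif_z]

/-- The step with `γ = 1`, if nothing is guessed. -/
theorem nx_one (ok : ℕ → ℕ → ℕ) (tst : ℕ → ℕ) (mal : ℕ) (w : List Bool) (x : Sta)
    (h : x.mo ≠ 7) : (machM ok tst mal).nx w x 1 = cif (eq01 x.mo 8) rejS x := by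
  change nextM ok tst mal x (codeB w[addrM x]?) 1 = _
  have h1 : gqM x = 0 := by
    unfold gqM eq01
    rw [if_neg h, Nat.zero_mul, Nat.zero_mul]
  unfold nextM
  rw [h1]
  exact cif_n (by norm_num) _ _

theorem inv_one {ok : ℕ → ℕ → ℕ} {tst : ℕ → ℕ} {mal : ℕ} {w : List Bool} {x : Sta}
    (hx : Inv ok tst mal w x) (h : x.mo ≠ 7) : Inv ok tst mal w ((machM ok tst mal).nx w x 1) := by
  rw [nx_one ok tst mal w x h]
  by_cases h8 : eq01 x.mo 8 = 0
  · rw [h8, cif_z]
    exact .rej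
  · rw [cif_n h8]
    exact hx

section steps

variable {ok : ℕ → ℕ → ℕ} {tst : ℕ → ℕ} {mal : ℕ} {w : List Bool}

theorem st0 (FU : GoalFU) (h : ℕ) (h1 : ∀ i < h, w[i]? = some true) :
    Inv ok tst mal w (nextN ok tst mal (hdr 0 h 0 0 0 0) (codeB w[h]?) 0) := by
  rw [nextN0]
  rcases e : w[h]? with _ | a
  · rw [codeB_none, cif_z]
    refine inv_mal fun h' b' hf => ?_
    have h2 : h ≤ h' := (FU ok w h 0 h' b' hf).2.2.2 h1
    rcases Nat.lt_or_ge h h' with h3 | h3
    · have h4 := hf.1.1.1 h h3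
      rw [e] at h4
      exact absurd h4 (by simp)
    · have h4 : h = h' := le_antisymm h2 h3
      have h5 := hf.1.1.2.1
      rw [← h4, e] at h5
      exact absurd h5 (by simp)
  · cases a
    · rw [codeB_false, cif_n one_ne_zero]
      exact .m1 h 0 ⟨h1, e, fun i hi => absurd hi (Nat.not_lt_zero i)⟩
    · rw [codeB_true, cif_n two_ne_zero]
      refine .m0 (h + 1) fun i hi => ?_
      rcases Nat.lt_succ_iff_lt_or_eq.mp hi with h3 | h3
      · exact h1 i h3
      · rw [h3]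
        exact e

theorem st1 (FU : GoalFU) (h b : ℕ) (h1 : Pre w h b) :
    Inv ok tst mal w (nextN ok tst mal (hdr 1 h b 0 0 0) (codeB w[h + 1 + b]?) 0) := by
  rw [nextN1]
  have key : ∀ h' b', Full ok w h' b' → w[h + 1 + b]? ≠ some true →
      h = h' ∧ b = b' ∧ w[h + 1 + b]? = some false := by
    intro h' b' hf hne
    obtain ⟨h2, h3⟩ := (FU ok w h b h' b' hf).2.2.1 h1
    subst h2
    rcases Nat.lt_or_ge b b' with h4 | h4
    · exact absurd (hf.1.1.2.2 b h4) hne
    · have h5 : b = b' := le_antisymm h3 h4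
      subst h5
      exact ⟨rfl, rfl, hf.1.2.1⟩
  rcases e : w[h + 1 + b]? with _ | a
  · rw [codeB_none, cif_z]
    refine inv_mal fun h' b' hf => ?_
    have h2 := (key h' b' hf (by rw [e]; simp)).2.2
    rw [e] at h2
    exact absurd h2 (by simp)
  · cases a
    · rw [codeB_false, cif_n one_ne_zero, cif_z]
      by_cases hz : h * b * ok h b = 0
      · rw [hz, cif_z]
        refine inv_mal fun h' b' hf => ?_
        obtain ⟨h2, h3, -⟩ := key h' b' hf (by rw [e]; simp)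
        subst h2
        subst h3
        obtain ⟨⟨_, _, h4, h5, h6⟩, _⟩ := hf
        exact (mul_ne_zero (mul_ne_zero (by omega) (by omega)) h6) hz
      · rw [cif_n hz]
        have h2 := left_ne_zero_of_mul hz
        refine .m2 h b 0 ⟨h1, e, Nat.one_le_iff_ne_zero.mpr (left_ne_zero_of_mul h2),
          Nat.one_le_iff_ne_zero.mpr (right_ne_zero_of_mul h2), right_ne_zero_of_mul hz⟩
          (Nat.zero_le _) fun t ht => absurd ht (Nat.not_lt_zero t)
    · rw [codeB_true, cif_n two_ne_zero]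
      refine .m1 h (b + 1) ⟨h1.1, h1.2.1, fun i hi => ?_⟩
      rcases Nat.lt_succ_iff_lt_or_eq.mp hi with h3 | h3
      · exact h1.2.2 i h3
      · rw [h3]
        exact e

theorem st2 (FU : GoalFU) (h b u : ℕ) (h1 : Hdr ok w h b) (hu : u ≤ h)
    (h2 : ∀ t < u, 2 ^ t < w.length) :
    Inv ok tst mal w (nextN ok tst mal (hdr 2 h b u (2 ^ u) 0) (codeB w[2 ^ u]?) 0) := by
  rw [nextN2]
  rcases e : w[2 ^ u]? with _ | a
  · rw [codeB_none, cif_z]
    refine inv_mal fun h' b' hf => ?_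
    obtain ⟨h3, h4⟩ := (FU ok w h b h' b' hf).2.1 h1
    subst h3
    subst h4
    have h5 : 2 ^ u < w.length :=
      len_gt hf (le_trans (Nat.pow_le_pow_right (by norm_num) hu) (blocks_ge1 h b))
    have h6 := List.getElem?_eq_none_iff.mp e
    omega
  · rw [cif_n (codeB_some a)]
    have h5 : 2 ^ u < w.length := (List.getElem?_eq_some_iff.mp e).1
    by_cases hz : h - u = 0
    · have h6 : u = h := by omega
      subst h6
      rw [Nat.sub_self, cif_z]
      exact .m3 u b 0 h1 (Nat.zero_le _) h5 fun t ht => absurd ht (Nat.not_lt_zero t)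
    · rw [cif_n hz, show 2 * 2 ^ u = 2 ^ (u + 1) by rw [pow_succ, mul_comm]]
      refine .m2 h b (u + 1) h1 (by omega) fun t ht => ?_
      rcases Nat.lt_succ_iff_lt_or_eq.mp ht with h3 | h3
      · exact h2 t h3
      · rw [h3]
        exact h5

theorem st3 (FU : GoalFU) (h b u : ℕ) (h1 : Hdr ok w h b) (hu : u ≤ 2 * b)
    (h2 : 2 ^ h < w.length) (h3 : ∀ t < u, 2 ^ t < w.length) :
    Inv ok tst mal w (nextN ok tst mal (hdr 3 h b u (2 ^ h) (2 ^ u)) (codeB w[2 ^ u]?) 0) := by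
  rw [nextN3]
  rcases e : w[2 ^ u]? with _ | a
  · rw [codeB_none, cif_z]
    refine inv_mal fun h' b' hf => ?_
    obtain ⟨h4, h5⟩ := (FU ok w h b h' b' hf).2.1 h1
    subst h4
    subst h5
    have h6 : 2 ^ u < w.length := by
      refine len_gt hf (le_trans ?_ (blocks_ge2 h1.2.2.1))
      rw [four_pow]
      exact Nat.pow_le_pow_right (by norm_num) hu
    have h7 := List.getElem?_eq_none_iff.mp e
    omega
  · rw [cif_n (codeB_some a)]
    have h5 : 2 ^ u < w.length := (List.getElem?_eq_some_iff.mp e).1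
    by_cases hz : 2 * b - u = 0
    · have h6 : u = 2 * b := by omega
      rw [hz, cif_z, h6, ← four_pow]
      rw [h6, ← four_pow] at h5
      exact .m4 h b h1 h2 h5
    · rw [cif_n hz, show 2 * 2 ^ u = 2 ^ (u + 1) by rw [pow_succ, mul_comm]]
      refine .m3 h b (u + 1) h1 (by omega) h2 fun t ht => ?_
      rcases Nat.lt_succ_iff_lt_or_eq.mp ht with h4 | h4
      · exact h3 t h4
      · rw [h4]
        exact h5

theorem st4 (FU : GoalFU) (h b : ℕ) (h1 : Hdr ok w h b) (h2 : 2 ^ h < w.length)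
    (h3 : 4 ^ b < w.length) :
    Inv ok tst mal w (nextN ok tst mal (hdr 4 h b 0 (2 ^ h) (4 ^ b))
      (codeB w[h + b + 2 + blocks h b * b]?) 0) := by
  rw [nextN4]
  rcases e : w[h + b + 2 + blocks h b * b]? with _ | a
  · rw [codeB_none, cif_z]
    exact .m5 h b h1 h2 h3 (List.getElem?_eq_none_iff.mp e)
  · rw [cif_n (codeB_some a)]
    refine inv_mal fun h' b' hf => ?_
    obtain ⟨h4, h5⟩ := (FU ok w h b h' b' hf).2.1 h1
    subst h4
    subst h5
    have h6 := (List.getElem?_eq_some_iff.mp e).1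
    rw [hf.2] at h6
    exact absurd h6 (lt_irrefl _)

theorem st5 (FU : GoalFU) (h b : ℕ) (h1 : Hdr ok w h b)
    (h4 : w.length ≤ h + b + 2 + blocks h b * b) :
    Inv ok tst mal w (nextN ok tst mal (hdr 5 h b 0 (2 ^ h) (4 ^ b))
      (codeB w[h + b + 2 + blocks h b * b - 1]?) 0) := by
  rw [nextN5]
  rcases e : w[h + b + 2 + blocks h b * b - 1]? with _ | a
  · rw [codeB_none, cif_z]
    refine inv_mal fun h' b' hf => ?_
    obtain ⟨h5, h6⟩ := (FU ok w h b h' b' hf).2.1 h1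
    subst h5
    subst h6
    have h7 := List.getElem?_eq_none_iff.mp e
    have h8 := hf.2
    generalize blocks h b * b = N at h7 h8
    omega
  · rw [cif_n (codeB_some a)]
    have h7 := (List.getElem?_eq_some_iff.mp e).1
    refine .m6 h b 0 ⟨h1, ?_⟩ (Nat.zero_le _)
    generalize blocks h b * b = N at h7 h4 ⊢
    omega

theorem st6 (h b u y : ℕ) (h1 : Full ok w h b) (hu : u ≤ EP h b) :
    Inv ok tst mal w (nextN ok tst mal (hdr 6 h b u (2 ^ u) 0) y 0) := by
  rw [nextN6]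
  by_cases hz : EP h b - u = 0
  · have h6 : u = EP h b := by omega
    rw [hz, cif_z, h6]
    refine .m7 h b 0 0 0 0 C0 h1 (Nat.pow_pos (by norm_num)) (Nat.zero_le _)
      (Nat.pow_pos (by norm_num)) ?_ (Ch.zero _)
    rw [Nat.zero_sub]
    rfl
  · rw [cif_n hz, show 2 * 2 ^ u = 2 ^ (u + 1) by rw [pow_succ, mul_comm]]
    exact .m6 h b (u + 1) h1 (by omega)

end steps

/-- FI0. -/
theorem gFI0 : GoalFI0 := by
  intro FU ok tst mal w x γ hγ hx h7
  have hγ' : γ = 0 ∨ γ = 1 := by omega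
  rcases hγ' with rfl | rfl
  swap
  · exact inv_one hx h7
  rw [nx_zero]
  cases hx with
  | rej => rw [nextN9]; exact .rej
  | m0 h h1 => exact st0 FU h h1
  | m1 h b h1 => exact st1 FU h b h1
  | m2 h b u h1 hu h2 => exact st2 FU h b u h1 hu h2
  | m3 h b u h1 hu h2 h3 => exact st3 FU h b u h1 hu h2 h3
  | m4 h b h1 h2 h3 => exact st4 FU h b h1 h2 h3
  | m5 h b h1 h2 h3 h4 => exact st5 FU h b h1 h4
  | m6 h b u h1 hu => exact st6 h b u _ h1 hu
  | m7 h b u τ g v C h1 hτ hu hg hv hC => exact absurd rfl h7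
  | m8 h1 => rw [nextN8]; exact .m8 h1

end Pool.Agent.Helper54.TE
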