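import Pool.Agent.Helper1.TE.Goals3

/-!
# PROJECT TE (MP_8b4d68_lc), packet TE-T2A: the computations of the Turing machine
-/

namespace Pool.Agent.Helper54.TE

open Pool.Agent.Helper1.TE
open Pool.Agent.Helper65.LinSpace (Dir inputSym inputMove Ctx)
open Pool.Agent.Helper6.Compile (Sy tapeOf val single)

theorem tapeOf_nil_eq : Function.update (fun _ : ℤ => Sy.blank) 0 Sy.mark = tapeOf [] := by
  funext z
  by_cases hz : z = 0
  · subst hz
    rw [Function.update_self]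
    simp [tapeOf]
  · rw [Function.update_of_ne hz]
    simp [tapeOf, hz]

theorem cfg_ext {k : ℕ} {M : NTM k} {c c' : M.Cfg} (hs : c.state = c'.state)
    (hi : c.inp = c'.inp) (ht : c.tape = c'.tape) (hh : c.head = c'.head) : c = c' := by
  cases c
  cases c'
  simp only at hs hi ht hh
  subst hs hi ht hh
  rfl

section machine

variable {P : ℕ → XP} {k : ℕ} {o' : Fin k} {h0 : ∀ a, xtp (P 0) a < k}
  {h1 : ∀ a, xtp (P 1) a < k} {w : List Bool}

theorem next_init (x : (xTM P o' h0 h1).Cfg) :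
    (xTM P o' h0 h1).Next w (xTM P o' h0 h1).init x ↔
      x = cfgX P o' h0 h1 .top 0 (fun _ => tapeOf []) fun _ => 0 := by
  have key : ({ state := XCtl.top
                inp := inputMove w .stay 0
                tape := fun _ => Function.update (fun _ : ℤ => Sy.blank) 0 Sy.mark
                head := fun _ => 0 + Dir.stay.toInt } : (xTM P o' h0 h1).Cfg) =
      cfgX P o' h0 h1 .top 0 (fun _ => tapeOf []) fun _ => 0 := by
    refine cfg_ext rfl rfl ?_ rfl
    funext i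
    exact tapeOf_nil_eq
  constructor
  · rintro ⟨a, ha, rfl⟩
    have ha' : a = (XCtl.top, Dir.stay, fun _ => (Sy.mark, Dir.stay)) := ha
    rw [ha', ← key]
    rfl
  · intro hx
    refine ⟨(XCtl.top, Dir.stay, fun _ => (Sy.mark, Dir.stay)), rfl, ?_⟩
    rw [hx, ← key]
    rfl

theorem next_top (n : ℕ) (T : ℕ → ℤ → Sy) (H : ℕ → ℤ) (x : (xTM P o' h0 h1).Cfg) :
    (xTM P o' h0 h1).Next w (cfgX P o' h0 h1 .top n T H) x ↔
      ∃ γ < 2, x = cfgX P o' h0 h1 (entX P γ) n T H := by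
  have key : ∀ q : XCtl P, ({ state := q
                              inp := inputMove w .stay n
                              tape := fun j => Function.update (T j) (H j) (T j (H j))
                              head := fun j => H j + Dir.stay.toInt } :
        (xTM P o' h0 h1).Cfg) = cfgX P o' h0 h1 q n T H := by
    intro q
    refine cfg_ext rfl rfl ?_ ?_
    · funext i
      exact Function.update_eq_self _ _
    · funext i
      exact add_zero _
  constructor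
  · rintro ⟨a, ha, rfl⟩
    rcases ha with ha | ha
    · have ha' : a = (XCtl.run0 (xentry (P 0)), Dir.stay, fun j : Fin k =>
          (T j (H j), Dir.stay)) := ha
      subst ha'
      exact ⟨0, by norm_num, key (XCtl.run0 (xentry (P 0)))⟩
    · have ha' : a = (XCtl.run1 (xentry (P 1)), Dir.stay, fun j : Fin k =>
          (T j (H j), Dir.stay)) := ha
      subst ha'
      exact ⟨1, by norm_num, key (XCtl.run1 (xentry (P 1)))⟩
  · rintro ⟨γ, hγ, rfl⟩
    have hγ' : γ = 0 ∨ γ = 1 := by omega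
    rcases hγ' with rfl | rfl
    · exact ⟨(XCtl.run0 (xentry (P 0)), Dir.stay, fun j : Fin k => (T j (H j), Dir.stay)),
        Or.inl rfl, (key (XCtl.run0 (xentry (P 0)))).symm⟩
    · exact ⟨(XCtl.run1 (xentry (P 1)), Dir.stay, fun j : Fin k => (T j (H j), Dir.stay)),
        Or.inr rfl, (key (XCtl.run1 (xentry (P 1)))).symm⟩

theorem no_next {c x : (xTM P o' h0 h1).Cfg} (hc : c.state = XCtl.acc) :
    ¬ (xTM P o' h0 h1).Next w c x := by
  rintro ⟨a, ha, -⟩
  rw [hc] at ha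
  exact ha

theorem det_next {k : ℕ} {M : NTM k} {w : List Bool} {K : ℤ} {c c' : M.Cfg}
    (h : Det M w K c c') : M.Next w c c' := (h.1 c').mpr rfl

theorem det_reach {k : ℕ} {M : NTM k} {w : List Bool} {K : ℤ} {c c' : M.Cfg}
    (h : Relation.ReflTransGen (Det M w K) c c') : Relation.ReflTransGen (M.Next w) c c' := by
  induction h with
  | refl => exact .refl
  | tail _ h ih => exact ih.tail (det_next h)

/-- A top configuration for `a`. -/
def TopC {α : Type} [Ctx α] (P : ℕ → XP) {k : ℕ} (o' : Fin k) (h0 : ∀ a, xtp (P 0) a < k)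
    (h1 : ∀ a, xtp (P 1) a < k) (w : List Bool) (W : ℕ) (a : α) (x : (xTM P o' h0 h1).Cfg) : Prop :=
  ∃ n ≤ w.length + 1, ∃ ls, Rep ls (Ctx.enc a) W ∧
    x = cfgX P o' h0 h1 .top n (fun i => tapeOf (ls i)) fun _ => 0

/-- The start of a segment for `a, γ`. -/
def EntC {α : Type} [Ctx α] (P : ℕ → XP) {k : ℕ} (o' : Fin k) (h0 : ∀ a, xtp (P 0) a < k)
    (h1 : ∀ a, xtp (P 1) a < k) (w : List Bool) (W : ℕ) (a : α) (γ : ℕ)
    (x : (xTM P o' h0 h1).Cfg) : Prop :=
  ∃ n ≤ w.length + 1, ∃ ls, Rep ls (Ctx.enc a) W ∧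
    x = cfgX P o' h0 h1 (entX P γ) n (fun i => tapeOf (ls i)) fun _ => 0

/-- The end of a segment for the new state `b`. -/
def EndC {α : Type} [Ctx α] (N : NumMach α) (P : ℕ → XP) {k : ℕ} (o' : Fin k)
    (h0 : ∀ a, xtp (P 0) a < k) (h1 : ∀ a, xtp (P 1) a < k) (w : List Bool) (W : ℕ) (b : α)
    (e : (xTM P o' h0 h1).Cfg) : Prop :=
  (N.acc b = 0 ∧ TopC P o' h0 h1 w W b e) ∨ (N.acc b ≠ 0 ∧ e.state = XCtl.acc)

/-- The invariant of the reachable configurations. -/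
inductive TInv {α : Type} [Ctx α] (N : NumMach α) (P : ℕ → XP) {k : ℕ} (o' : Fin k)
    (h0 : ∀ a, xtp (P 0) a < k) (h1 : ∀ a, xtp (P 1) a < k) (w : List Bool) (W : ℕ) :
    (xTM P o' h0 h1).Cfg → Prop
  | init : TInv N P o' h0 h1 w W (xTM P o' h0 h1).init
  | top (a : α) (x : (xTM P o' h0 h1).Cfg) (ha : N.Reach w a) (hz : N.acc a = 0)
      (hx : TopC P o' h0 h1 w W a x) : TInv N P o' h0 h1 w W x
  | seg (a : α) (γ : ℕ) (s x e : (xTM P o' h0 h1).Cfg) (ha : N.Reach w a) (hz : N.acc a = 0)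
      (hγ : γ < 2) (hs : EntC P o' h0 h1 w W a γ s)
      (hsx : Relation.ReflTransGen (Det (xTM P o' h0 h1) w (W + 1)) s x)
      (hxe : Relation.ReflTransGen (Det (xTM P o' h0 h1) w (W + 1)) x e)
      (he : EndC N P o' h0 h1 w W (N.nx w a γ) e) : TInv N P o' h0 h1 w W x

section

variable {α : Type} [Ctx α] {N : NumMach α} {W : ℕ}

theorem topC_start (hs : ∀ i, Ctx.enc N.start i = 0) :
    TopC P o' h0 h1 w W N.start (cfgX P o' h0 h1 .top 0 (fun _ => tapeOf []) fun _ => 0) := by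
  refine ⟨0, Nat.zero_le _, fun _ => [], fun i => ⟨?_, Nat.zero_le _⟩, rfl⟩
  rw [hs i]
  rfl

theorem TInv.step (hs : ∀ i, Ctx.enc N.start i = 0) (hs0 : N.acc N.start = 0)
    (hR : ∀ a γ, N.Reach w a → γ < 2 → ∀ s, EntC P o' h0 h1 w W a γ s →
      ∃ e, Relation.ReflTransGen (Det (xTM P o' h0 h1) w (W + 1)) s e ∧
        EndC N P o' h0 h1 w W (N.nx w a γ) e)
    {x y : (xTM P o' h0 h1).Cfg} (hx : TInv N P o' h0 h1 w W x)
    (hxy : (xTM P o' h0 h1).Next w x y) : TInv N P o' h0 h1 w W y := by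
  have htop : ∀ (a : α) (x : (xTM P o' h0 h1).Cfg), N.Reach w a → N.acc a = 0 →
      TopC P o' h0 h1 w W a x → (xTM P o' h0 h1).Next w x y → TInv N P o' h0 h1 w W y := by
    intro a x ha hz hx hxy
    obtain ⟨n, hn, ls, hls, rfl⟩ := hx
    obtain ⟨γ, hγ, rfl⟩ := (next_top _ _ _ _).mp hxy
    have hs : EntC P o' h0 h1 w W a γ (cfgX P o' h0 h1 (entX P γ) n (fun i => tapeOf (ls i))
        fun _ => 0) := ⟨n, hn, ls, hls, rfl⟩
    obtain ⟨e, he1, he2⟩ := hR a γ ha hγ _ hs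
    exact .seg a γ _ _ e ha hz hγ hs .refl he1 he2
  cases hx with
  | init =>
    rw [next_init] at hxy
    rw [hxy]
    exact .top N.start _ .refl hs0 (topC_start hs)
  | top a x ha hz hx => exact htop a x ha hz hx hxy
  | seg a γ s x e ha hz hγ hs hsx hxe he =>
    rcases Relation.ReflTransGen.cases_head hxe with h | ⟨z, hxz, hze⟩
    · subst h
      rcases he with ⟨hb, hb'⟩ | ⟨hb, hb'⟩
      · exact htop (N.nx w a γ) x (ha.tail ⟨γ, hγ, rfl⟩) hb hb' hxy
      · exact absurd hxy (no_next hb')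
    · have hyz := (hxz.1 y).mp hxy
      rw [hyz]
      exact .seg a γ s z e ha hz hγ hs (hsx.tail hxz) hze he

theorem TInv.of_reach (hs : ∀ i, Ctx.enc N.start i = 0) (hs0 : N.acc N.start = 0)
    (hR : ∀ a γ, N.Reach w a → γ < 2 → ∀ s, EntC P o' h0 h1 w W a γ s →
      ∃ e, Relation.ReflTransGen (Det (xTM P o' h0 h1) w (W + 1)) s e ∧
        EndC N P o' h0 h1 w W (N.nx w a γ) e)
    {x : (xTM P o' h0 h1).Cfg} (hx : (xTM P o' h0 h1).Reach w x) : TInv N P o' h0 h1 w W x := by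
  induction hx with
  | refl => exact .init
  | tail _ h ih => exact ih.step hs hs0 hR h

theorem TInv.head {x : (xTM P o' h0 h1).Cfg} (hx : TInv N P o' h0 h1 w W x) (i : Fin k) :
    |x.head i| ≤ (W : ℤ) + 1 := by
  have hz : |(0 : ℤ)| ≤ (W : ℤ) + 1 := by
    rw [abs_zero]
    positivity
  cases hx with
  | init => exact hz
  | top a x ha hz' hx =>
    obtain ⟨n, hn, ls, hls, rfl⟩ := hx
    exact hz
  | seg a γ s x e ha hz' hγ hs hsx hxe he =>
    rcases Relation.ReflTransGen.cases_tail hsx with h | ⟨z, hsz, hzx⟩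
    · obtain ⟨n, hn, ls, hls, rfl⟩ := hs
      rw [h]
      exact hz
    · exact hzx.2 i

theorem TInv.acc {x : (xTM P o' h0 h1).Cfg} (hx : TInv N P o' h0 h1 w W x)
    (hxa : x.state = XCtl.acc) : ∃ a, N.Reach w a ∧ N.acc a ≠ 0 := by
  cases hx with
  | init => cases hxa
  | top a x ha hz' hx =>
    obtain ⟨n, hn, ls, hls, rfl⟩ := hx
    cases hxa
  | seg a γ s x e ha hz' hγ hs hsx hxe he =>
    rcases Relation.ReflTransGen.cases_head hxe with h | ⟨z, hxz, hze⟩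
    · subst h
      rcases he with ⟨hb, n, hn, ls, hls, rfl⟩ | ⟨hb, hb'⟩
      · cases hxa
      · exact ⟨N.nx w a γ, ha.tail ⟨γ, hγ, rfl⟩, hb⟩
    · exact absurd (det_next hxz) (no_next hxa)

/-- Numeric computations are computations of the Turing machine. -/
theorem reach_top (hs : ∀ i, Ctx.enc N.start i = 0) (hs0 : N.acc N.start = 0)
    (hR : ∀ a γ, N.Reach w a → γ < 2 → ∀ s, EntC P o' h0 h1 w W a γ s →
      ∃ e, Relation.ReflTransGen (Det (xTM P o' h0 h1) w (W + 1)) s e ∧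
        EndC N P o' h0 h1 w W (N.nx w a γ) e)
    {a : α} (ha : N.Reach w a) :
    (N.acc a = 0 ∧ ∃ x, (xTM P o' h0 h1).Reach w x ∧ TopC P o' h0 h1 w W a x) ∨
      (xTM P o' h0 h1).Accepts w := by
  induction ha with
  | refl =>
    exact Or.inl ⟨hs0, _, Relation.ReflTransGen.single ((next_init _).mpr rfl), topC_start hs⟩
  | @tail a b hab hb ih =>
    obtain ⟨γ, hγ, rfl⟩ := hb
    rcases ih with ⟨hz, x, hx, hxt⟩ | h
    · obtain ⟨n, hn, ls, hls, rfl⟩ := hxt
      obtain ⟨e, he1, he2⟩ := hR a γ hab hγ _ ⟨n, hn, ls, hls, rfl⟩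
      have he3 : (xTM P o' h0 h1).Reach w e :=
        (hx.tail ((next_top _ _ _ _).mpr ⟨γ, hγ, rfl⟩)).trans (det_reach he1)
      rcases he2 with ⟨hb, hb'⟩ | ⟨hb, hb'⟩
      · exact Or.inl ⟨hb, e, he3, hb'⟩
      · exact Or.inr ⟨e, he3, hb'⟩
    · exact Or.inr h

end

end machine

/-- The segments. -/
theorem segs (hround : Round) {α : Type} [Ctx α] (N : NumMach α) (P : ℕ → XP) (o c : ℕ)
    (hbody : Body N P o c) (hacc : ∀ a, N.acc a ≤ 1) (k : ℕ) (o' : Fin k) (ho : (o' : ℕ) = o)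
    (h0 : ∀ a, xtp (P 0) a < k) (h1 : ∀ a, xtp (P 1) a < k) (w : List Bool) (S : ℕ)
    (hS : ∀ a, N.Reach w a → ∀ i, Ctx.enc a i < 2 ^ S) (a : α) (γ : ℕ) (ha : N.Reach w a)
    (hγ : γ < 2) (s : (xTM P o' h0 h1).Cfg) (hs : EntC P o' h0 h1 w ((S + 2) * c + 1) a γ s) :
    ∃ e, Relation.ReflTransGen (Det (xTM P o' h0 h1) w (((S + 2) * c + 1 : ℕ) + 1)) s e ∧
      EndC N P o' h0 h1 w ((S + 2) * c + 1) (N.nx w a γ) e := by
  obtain ⟨n, hn, ls, hls, rfl⟩ := hs
  have hW : (2 ^ S + 2) ^ c < 2 ^ ((S + 2) * c + 1) := by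
    have h2 : 1 ≤ 2 ^ S := Nat.one_le_two_pow
    have h3 : 2 ^ S + 2 ≤ 2 ^ (S + 2) := by
      rw [pow_add]
      omega
    calc (2 ^ S + 2) ^ c ≤ (2 ^ (S + 2)) ^ c := Nat.pow_le_pow_left h3 c
      _ = 2 ^ ((S + 2) * c) := (pow_mul 2 (S + 2) c).symm
      _ < 2 ^ ((S + 2) * c + 1) := Nat.pow_lt_pow_right (by norm_num) (Nat.lt_succ_self _)
  obtain ⟨hA, hB⟩ := hround N P o c hbody hacc k o' ho h0 h1 w a γ n (2 ^ S) ((S + 2) * c + 1) ls
    hγ hn (fun i => (hS a ha i).le) hW hls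
  by_cases hz : N.acc (N.nx w a γ) = 0
  · obtain ⟨n', hn', ls', hls', h⟩ := hA hz
    exact ⟨_, h, Or.inl ⟨hz, n', hn', ls', hls', rfl⟩⟩
  · obtain ⟨e, he, h⟩ := hB hz
    exact ⟨e, h, Or.inr ⟨hz, he⟩⟩

/-- T2A. -/
theorem gT2A : GoalT2A := by
  intro hround _ α _ N P o c hbody hacc hs hs0 k o' ho h0 h1 w S hS
  have hR := segs hround N P o c hbody hacc k o' ho h0 h1 w S hS
  refine ⟨⟨?_, ?_⟩, ?_⟩
  · rintro ⟨x, hx, hxa⟩
    exact (TInv.of_reach hs hs0 hR hx).acc hxa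
  · rintro ⟨a, ha, haa⟩
    rcases reach_top hs hs0 hR ha with ⟨hz, -⟩ | h
    · exact absurd hz haa
    · exact h
  · intro x hx i
    have h2 := (TInv.of_reach hs hs0 hR hx).head i
    have h3 : ((|x.head i| : ℤ) : ℝ) ≤ ((((S + 2) * c + 1 : ℕ) : ℤ) + 1 : ℤ) := Int.cast_le.mpr h2
    rw [Int.cast_abs] at h3
    refine h3.trans (le_of_eq ?_)
    push_cast
    ring

end Pool.Agent.Helper54.TE
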